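import Pool.Agent.Helper32.AG.Goals

/-!
# AG-N2: numbers for two blocks
-/

set_option autoImplicit false

namespace Pool.Agent.Helper86.AG

open Pool.Agent.Helper32.AG

/-- The basic inequality. -/
theorem n2_base (w e α kk r : ℕ) (he : 0 < e)
    (h1 : α + e ^ 2 + 3 * e ≤ 2 * e * kk + 1) (h2 : w ^ 2 ≤ r * (2 * e * α)) :
    2 * w + e ^ 2 + 3 * e ≤ 2 * e * (kk + r) + 1 := by
  by_contra hcon
  push Not at hcon
  zify at *
  set X : ℤ := 2 * e * kk + 1 - e ^ 2 - 3 * e with hX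
  set Y : ℤ := 2 * e * r with hY
  have hα : (0 : ℤ) ≤ α := by positivity
  have hY0 : 0 ≤ Y := by positivity
  have hXα : (α : ℤ) ≤ X := by rw [hX]; linarith
  have hXY : (w : ℤ) ^ 2 ≤ Y * X := by
    calc (w : ℤ) ^ 2 ≤ r * (2 * e * α) := h2
      _ = Y * α := by rw [hY]; ring
      _ ≤ Y * X := mul_le_mul_of_nonneg_left hXα hY0
  have hlt : X + Y < 2 * w := by rw [hX, hY]; linarith
  have hX0 : 0 ≤ X := le_trans hα hXα
  nlinarith [sq_nonneg (X - Y), mul_self_lt_mul_self (add_nonneg hX0 hY0) hlt]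

theorem n2_small (w e T : ℕ) (he : 0 < e) (h : 2 * w + e ^ 2 + 3 * e ≤ 2 * e * T + 1) :
    3 ^ ((2 * w + e ^ 2 + 5 * e - 2) / (2 * e)) ≤ 3 ^ T := by
  refine Nat.pow_le_pow_right (by norm_num) ?_
  have h2 : (2 * w + e ^ 2 + 5 * e - 2) / (2 * e) < T + 1 := by
    rw [Nat.div_lt_iff_lt_mul (by omega)]
    have : (T + 1) * (2 * e) = 2 * e * T + 2 * e := by ring
    rw [this]
    omega
  omega

theorem pow4 (p : ℕ) (hp : 9 ≤ p) : p ^ 4 ≤ 3 ^ (p - 1) := by
  induction p, hp using Nat.le_induction with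
  | base => norm_num
  | succ n hn ih =>
    have e1 : n + 1 - 1 = (n - 1) + 1 := by omega
    rw [e1, pow_succ]
    have h1 : (n + 1) ^ 4 ≤ n ^ 4 * 3 := by
      have h2 : 9 * (n + 1) ≤ 10 * n := by omega
      have h3 : (9 * (n + 1)) ^ 4 ≤ (10 * n) ^ 4 := Nat.pow_le_pow_left h2 4
      rw [mul_pow, mul_pow] at h3
      norm_num at h3
      nlinarith [Nat.zero_le (n ^ 4)]
    exact h1.trans (Nat.mul_le_mul_right 3 ih)

theorem cub (p c a₀ : ℕ) (hp : 3 ≤ p) (ha₀ : 1 ≤ a₀) (hs : (a₀ + 1) ^ 3 ≤ p * a₀ ^ 3)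
    (h0 : c * a₀ ^ 3 + 1 ≤ p ^ a₀) : ∀ a, a₀ ≤ a → c * a ^ 3 + 1 ≤ p ^ a := by
  intro a ha
  have key : ∀ a, a₀ ≤ a → (a + 1) ^ 3 ≤ p * a ^ 3 := by
    intro a ha
    -- (a+1) a₀ ≤ (a₀+1) a
    have h1 : (a + 1) * a₀ ≤ (a₀ + 1) * a := by nlinarith
    have h2 : ((a + 1) * a₀) ^ 3 ≤ ((a₀ + 1) * a) ^ 3 := Nat.pow_le_pow_left h1 3
    rw [mul_pow, mul_pow] at h2
    have h3 : (a + 1) ^ 3 * a₀ ^ 3 ≤ (p * a ^ 3) * a₀ ^ 3 := by
      calc (a + 1) ^ 3 * a₀ ^ 3 ≤ (a₀ + 1) ^ 3 * a ^ 3 := h2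
        _ ≤ (p * a₀ ^ 3) * a ^ 3 := Nat.mul_le_mul_right _ hs
        _ = (p * a ^ 3) * a₀ ^ 3 := by ring
    exact Nat.le_of_mul_le_mul_right h3 (by positivity)
  induction a, ha using Nat.le_induction with
  | base => exact h0
  | succ n hn ih =>
    rw [pow_succ]
    have h1 := key n hn
    calc c * (n + 1) ^ 3 + 1 ≤ c * (p * n ^ 3) + p := by
          have := Nat.mul_le_mul_left c h1
          omega
      _ = (c * n ^ 3 + 1) * p := by ring
      _ ≤ p ^ n * p := Nat.mul_le_mul_right _ ih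

/-- The large cases. -/
theorem n2_large (p a : ℕ) (h : (9 ≤ p ∧ 1 ≤ a) ∨ (p = 7 ∧ 3 ≤ a) ∨ (p = 5 ∧ 4 ≤ a) ∨
    (p = 3 ∧ 7 ≤ a)) : p ^ (4 * a ^ 3) ≤ 3 ^ (p ^ a - 1) := by
  have gen : ∀ c : ℕ, p ^ 4 ≤ 3 ^ c → c * a ^ 3 + 1 ≤ p ^ a →
      p ^ (4 * a ^ 3) ≤ 3 ^ (p ^ a - 1) := by
    intro c h1 h2
    calc p ^ (4 * a ^ 3) = (p ^ 4) ^ (a ^ 3) := by rw [pow_mul]
      _ ≤ (3 ^ c) ^ (a ^ 3) := Nat.pow_le_pow_left h1 _
      _ = 3 ^ (c * a ^ 3) := by rw [pow_mul]
      _ ≤ 3 ^ (p ^ a - 1) := Nat.pow_le_pow_right (by norm_num) (by omega)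
  rcases h with ⟨hp, ha⟩ | ⟨rfl, ha⟩ | ⟨rfl, ha⟩ | ⟨rfl, ha⟩
  · refine gen (p - 1) (pow4 p hp) (cub p (p - 1) 1 (by omega) le_rfl (by omega) (by
      rw [pow_one]; omega) a ha)
  · exact gen 8 (by norm_num) (cub 7 8 3 (by norm_num) (by norm_num) (by norm_num)
      (by norm_num) a ha)
  · exact gen 6 (by norm_num) (cub 5 6 4 (by norm_num) (by norm_num) (by norm_num)
      (by norm_num) a ha)
  · exact gen 4 (by norm_num) (cub 3 4 7 (by norm_num) (by norm_num) (by norm_num)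
      (by norm_num) a ha)

/-- The exceptional case `q = 81`, `e = 16`. -/
theorem n2_exc (α kk c r : ℕ) (h1 : α + 16 ^ 2 + 3 * 16 ≤ 2 * 16 * kk + 1) (hc : 1 ≤ c)
    (hr : 1 ≤ r) (h2 : 3 * (2 * 16 * α) ≤ 3 ^ c * (2 * 80)) (h3 : 80 ^ 2 ≤ r * (2 * 16 * α)) :
    81 ^ 2 * 80 ^ 2 ≤ 3 ^ (kk + c + r - 1) := by
  by_contra hcon
  have hS : kk + c + r ≤ 16 := by
    by_contra hS
    refine hcon (le_trans (by norm_num : 81 ^ 2 * 80 ^ 2 ≤ 3 ^ 16)
      (Nat.pow_le_pow_right (by norm_num) (by omega)))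
  have hkk : 10 ≤ kk := by
    have : 0 < α := by
      rcases Nat.eq_zero_or_pos α with h | h
      · rw [h] at h3
        norm_num at h3
      · exact h
    omega
  have hc6 : c ≤ 6 := by omega
  have hr6 : r ≤ 6 := by omega
  interval_cases c <;> interval_cases r <;> omega

theorem n2 : N2Stmt := by
  intro p a e α kk c r hp hp2 ha hq he hα hea hpe hx9 hx25 h1 hc hr h2 h3
  obtain ⟨w, hw⟩ : ∃ w, p ^ a = w + 1 := ⟨p ^ a - 1, by omega⟩
  have hw' : p ^ a - 1 = w := by omega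
  rw [hw'] at h2 h3 ⊢
  have hb := n2_base w e α kk r he h1 h3
  have hp3 : 3 ≤ p := by
    have := hp.two_le
    omega
  have hea2 : e ≤ a ^ 2 := Nat.le_of_dvd (by positivity) hea
  have hST : 3 ^ (kk + r) ≤ 3 ^ (kk + c + r - 1) :=
    Nat.pow_le_pow_right (by norm_num) (by omega)
  by_cases hL : (9 ≤ p ∧ 1 ≤ a) ∨ (p = 7 ∧ 3 ≤ a) ∨ (p = 5 ∧ 4 ≤ a) ∨ (p = 3 ∧ 7 ≤ a)
  · refine le_trans ?_ hST
    have hl := n2_large p a hL
    rw [hw'] at hl
    have hT : w ≤ a ^ 2 * (kk + r) := by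
      have h4 : 2 * w ≤ 2 * (e * (kk + r)) := by
        have : 2 * e * (kk + r) = 2 * (e * (kk + r)) := by ring
        rw [this] at hb
        omega
      have h5 : e * (kk + r) ≤ a ^ 2 * (kk + r) := Nat.mul_le_mul_right _ hea2
      omega
    have h6 : ((p ^ a) ^ 4) ^ (a ^ 2) ≤ (3 ^ (kk + r)) ^ (a ^ 2) := by
      calc ((p ^ a) ^ 4) ^ (a ^ 2) = p ^ (4 * a ^ 3) := by
            rw [← pow_mul, ← pow_mul]
            congr 1
            ring
        _ ≤ 3 ^ w := hl
        _ ≤ 3 ^ (a ^ 2 * (kk + r)) := Nat.pow_le_pow_right (by norm_num) hT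
        _ = (3 ^ (kk + r)) ^ (a ^ 2) := by
            rw [← pow_mul]
            congr 1
            ring
    have h7 : (p ^ a) ^ 4 ≤ 3 ^ (kk + r) :=
      (Nat.pow_le_pow_iff_left (by positivity)).1 h6
    have h8 : w ^ 2 ≤ (p ^ a) ^ 2 := Nat.pow_le_pow_left (by omega) 2
    calc (p ^ a) ^ 2 * w ^ 2 ≤ (p ^ a) ^ 2 * (p ^ a) ^ 2 := Nat.mul_le_mul_left _ h8
      _ = (p ^ a) ^ 4 := by ring
      _ ≤ 3 ^ (kk + r) := h7
  · have hp8 : p < 9 := by
      by_contra hcon
      exact hL (Or.inl ⟨by omega, ha⟩)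
    have hsm := n2_small w e (kk + r) he hb
    have hcases : (p = 7 ∧ a ≤ 2) ∨ (p = 5 ∧ a ≤ 3) ∨ (p = 3 ∧ a ≤ 6) := by
      interval_cases p
      · right; right; exact ⟨rfl, by omega⟩
      · exact absurd hp (by norm_num)
      · right; left; exact ⟨rfl, by omega⟩
      · exact absurd hp (by norm_num)
      · left; exact ⟨rfl, by omega⟩
      · exact absurd hp (by norm_num)
    have fin : ∀ N : ℕ, (p ^ a) ^ 2 * w ^ 2 ≤ 3 ^ N →
        N = (2 * w + e ^ 2 + 5 * e - 2) / (2 * e) →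
        (p ^ a) ^ 2 * w ^ 2 ≤ 3 ^ (kk + c + r - 1) := by
      intro N h4 h5
      rw [← h5] at hsm
      exact (h4.trans hsm).trans hST
    rcases hcases with ⟨rfl, ha2⟩ | ⟨rfl, ha2⟩ | ⟨rfl, ha2⟩
    · interval_cases a
      · obtain rfl : w = 6 := by omega
        interval_cases e
        exact fin _ (by norm_num) rfl
      · obtain rfl : w = 48 := by omega
        interval_cases e <;> first
          | (exfalso; revert hea; decide)
          | exact fin _ (by norm_num) rfl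
    · interval_cases a
      · obtain rfl : w = 4 := by omega
        interval_cases e
        exact fin _ (by norm_num) rfl
      · obtain rfl : w = 24 := by omega
        interval_cases e <;> first
          | (exfalso; revert hea; decide)
          | (exfalso; revert hx25; decide)
          | exact fin _ (by norm_num) rfl
      · obtain rfl : w = 124 := by omega
        interval_cases e <;> first
          | (exfalso; revert hea; decide)
          | exact fin _ (by norm_num) rfl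
    · interval_cases a
      · omega
      · obtain rfl : w = 8 := by omega
        interval_cases e <;> first
          | (exfalso; revert hea; decide)
          | (exfalso; revert hx9; decide)
          | exact fin _ (by norm_num) rfl
      · obtain rfl : w = 26 := by omega
        interval_cases e <;> first
          | (exfalso; revert hea; decide)
          | (exfalso; revert hpe; decide)
          | exact fin _ (by norm_num) rfl
      · obtain rfl : w = 80 := by omega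
        interval_cases e <;> first
          | (exfalso; revert hea; decide)
          | exact n2_exc α kk c r h1 hc hr h2 h3
          | exact fin _ (by norm_num) rfl
      · obtain rfl : w = 242 := by omega
        interval_cases e <;> first
          | (exfalso; revert hea; decide)
          | exact fin _ (by norm_num) rfl
      · obtain rfl : w = 728 := by omega
        have h100 : 100 ≤ kk + r → (3 ^ 6) ^ 2 * 728 ^ 2 ≤ 3 ^ (kk + c + r - 1) := fun h =>
          (le_trans (by norm_num : (3 ^ 6) ^ 2 * 728 ^ 2 ≤ 3 ^ 100)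
            (Nat.pow_le_pow_right (by norm_num) h)).trans hST
        clear hsm fin
        interval_cases e <;> first
          | (exfalso; revert hea; decide)
          | (exfalso; revert hpe; decide)
          | exact h100 (by omega)

end Pool.Agent.Helper86.AG
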