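import Pool.Agent.Helper32.AG.Goals

/-!
# AG-N3: numbers for one block
-/

set_option autoImplicit false

namespace Pool.Agent.Helper86.AG

open Pool.Agent.Helper32.AG

theorem n3_step (m : ℕ) (hm : 11 ≤ m) :
    ((m + 1) ^ 2 + 4) ^ 2 * (((m + 1) ^ 2 + 4) ^ 2 + 64) ≤ 4096 * 3 ^ m := by
  induction m, hm using Nat.le_induction with
  | base => norm_num
  | succ n hn ih =>
    have h1 : 5 * ((n + 1 + 1) ^ 2 + 4) ≤ 6 * ((n + 1) ^ 2 + 4) := by nlinarith
    set y := (n + 1 + 1) ^ 2 + 4 with hy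
    set x := (n + 1) ^ 2 + 4 with hx
    have h2 : 25 * y ^ 2 ≤ 36 * x ^ 2 := by
      have := Nat.pow_le_pow_left h1 2
      rw [mul_pow, mul_pow] at this
      norm_num at this
      exact this
    set Y := y ^ 2
    set X := x ^ 2
    have h3 : 25 * (Y + 64) ≤ 36 * (X + 64) := by omega
    have h4 : (25 * Y) * (25 * (Y + 64)) ≤ (36 * X) * (36 * (X + 64)) := Nat.mul_le_mul h2 h3
    have h5 : Y * (Y + 64) ≤ 3 * (X * (X + 64)) := by nlinarith [Nat.zero_le (X * (X + 64))]
    calc Y * (Y + 64) ≤ 3 * (X * (X + 64)) := h5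
      _ ≤ 3 * (4096 * 3 ^ n) := Nat.mul_le_mul_left 3 ih
      _ = 4096 * 3 ^ (n + 1) := by rw [pow_succ]; ring

/-- The finite check for fixed `p, a, d, h`. -/
def Q1 (p a d h : ℕ) : Prop :=
  (∀ a' < a, a' ∣ a → ¬ h ∣ p ^ a' - 1) →
      p ^ a * (p ^ a - 1) ≤
        3 ^ ((d * d + h - 1 + d - 1) / d + (p ^ a - 1 + h * d - 1) / (h * d) - 1)

instance (p a d h : ℕ) : Decidable (Q1 p a d h) := by
  unfold Q1
  infer_instance

/-- The finite check for fixed `p, a, d`. -/
def Q2 (p a d : ℕ) : Prop := ∀ h < 245, 0 < h → h ∣ p ^ a - 1 → Q1 p a d h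

instance (p a d : ℕ) : Decidable (Q2 p a d) := by
  unfold Q2
  infer_instance

/-- The finite check for fixed `p, a`. -/
def Q3 (p a : ℕ) : Prop := ∀ d < a + 1, 0 < d → d ∣ a → ¬ p ∣ d → Q2 p a d

instance (p a : ℕ) : Decidable (Q3 p a) := by
  unfold Q3
  infer_instance

/-- The finite check for fixed `a`. -/
def Q4 (a : ℕ) : Prop := ∀ p < 246, p ^ a ≤ 245 → 4 ≤ p ^ a → p ≠ 4 → Q3 p a

instance (a : ℕ) : Decidable (Q4 a) := by
  unfold Q4
  infer_instance

set_option maxRecDepth 100000 in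
theorem n3_fin : ∀ a < 8, Q4 a := by
  decide +kernel

theorem n3 : N3Stmt := by
  intro p a d h kk r hp ha hq hd hh hda hpd hhw hprim h1 hr h2
  obtain ⟨g, hg⟩ := hhw
  by_contra hcon
  push Not at hcon
  obtain ⟨w, hw⟩ : ∃ w, p ^ a = w + 1 := ⟨p ^ a - 1, by omega⟩
  have hw' : p ^ a - 1 = w := by omega
  have hkk : 1 ≤ kk := by
    rcases Nat.eq_zero_or_pos kk with h0 | h0
    · rw [h0] at h1
      nlinarith
    · exact h0
  obtain ⟨m, hm⟩ : ∃ m, kk + r = m + 1 := ⟨kk + r - 1, by omega⟩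
  have hm' : kk + r - 1 = m := by omega
  have hgr : g ≤ r * d := by
    rw [hg] at h2
    have : h * g ≤ h * (r * d) := by
      calc h * g ≤ r * (h * d) := h2
        _ = h * (r * d) := by ring
    exact Nat.le_of_mul_le_mul_left this hh
  have hwg : w = h * g := by rw [← hw', hg]
  have hsum : d * d + h + g ≤ d * (m + 1) + 1 := by
    rw [← hm]
    have : d * (kk + r) = d * kk + r * d := by ring
    rw [this]
    omega
  have hZ : 64 * w ≤ ((m + 1) ^ 2 + 4) ^ 2 := by
    have e1 : 4 * (h + g) ≤ (m + 1) ^ 2 + 4 := by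
      zify at hsum ⊢
      nlinarith [sq_nonneg ((m : ℤ) + 1 - 2 * d)]
    have e2 : (4 * (h + g)) ^ 2 ≤ ((m + 1) ^ 2 + 4) ^ 2 := Nat.pow_le_pow_left e1 2
    have e3 : 64 * (h * g) ≤ (4 * (h + g)) ^ 2 := by
      zify
      nlinarith [sq_nonneg ((h : ℤ) - g)]
    rw [hwg]
    exact e3.trans e2
  rw [hm', hw', hw] at hcon
  have hm10 : m ≤ 10 := by
    by_contra hm10
    have e1 := n3_step m (by omega)
    have e2 : (64 * w) * (64 * w + 64) ≤
        ((m + 1) ^ 2 + 4) ^ 2 * (((m + 1) ^ 2 + 4) ^ 2 + 64) :=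
      Nat.mul_le_mul hZ (by omega)
    have e3 : (64 * w) * (64 * w + 64) = 4096 * ((w + 1) * w) := by ring
    rw [e3] at e2
    have e4 := e2.trans e1
    omega
  have hw244 : w ≤ 244 := by
    have : (m + 1) ^ 2 + 4 ≤ 125 := by
      have := Nat.pow_le_pow_left (show m + 1 ≤ 11 by omega) 2
      omega
    have := Nat.pow_le_pow_left this 2
    omega
  have hp2 := hp.two_le
  have ha8 : a < 8 := by
    by_contra h8
    have e1 : 2 ^ 8 ≤ p ^ a := (Nat.pow_le_pow_left hp2 8).trans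
      (Nat.pow_le_pow_right (by omega) (by omega))
    omega
  have hp246 : p < 246 := by
    have : p ^ 1 ≤ p ^ a := Nat.pow_le_pow_right (by omega) ha
    rw [pow_one] at this
    omega
  have hp4 : p ≠ 4 := by
    rintro rfl
    revert hp
    norm_num
  have hhw2 : h ≤ w := by
    have : 0 < g := by
      rcases Nat.eq_zero_or_pos g with h0 | h0
      · rw [h0, mul_zero] at hwg
        omega
      · exact h0
    rw [hwg]
    exact Nat.le_mul_of_pos_right h this
  have key := n3_fin a ha8 p hp246 (by omega) hq hp4 d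
    (Nat.lt_succ_of_le (Nat.le_of_dvd ha hda)) hd hda hpd h (by omega) hh ⟨g, hg⟩
    (fun a' ha' hd' => hprim a' hd' ha')
  rw [hw', hw] at key
  have hK : (d * d + h - 1 + d - 1) / d ≤ kk := by
    have : (d * d + h - 1 + d - 1) / d < kk + 1 := by
      rw [Nat.div_lt_iff_lt_mul hd]
      have e1 : (kk + 1) * d = d * kk + d := by ring
      rw [e1]
      omega
    omega
  have hR : (w + h * d - 1) / (h * d) ≤ r := by
    have hhd : 0 < h * d := Nat.mul_pos hh hd
    have : (w + h * d - 1) / (h * d) < r + 1 := by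
      rw [Nat.div_lt_iff_lt_mul hhd]
      have e1 : (r + 1) * (h * d) = r * (h * d) + h * d := by ring
      rw [e1]
      rw [hw'] at h2
      omega
    omega
  have : 3 ^ ((d * d + h - 1 + d - 1) / d + (w + h * d - 1) / (h * d) - 1) ≤ 3 ^ m :=
    Nat.pow_le_pow_right (by norm_num) (by omega)
  omega

end Pool.Agent.Helper86.AG
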